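import Pool.Agent.Helper95.PM.Stmts
import Pool.Agent.Helper84.PW.HA2

/-!
PM, row HA3: the Hardy inequality with an arbitrary centre.
-/

set_option autoImplicit false

namespace Pool.Agent.Helper95.PW

open MeasureTheory Filter

theorem st_HA3 : ST_HA3 := by
  intro n k a v hv hc
  let c : Cf n := fun _ => a
  let w : Cf n → ℝ := fun x => v (x + c)
  have hw : ContDiff ℝ (⊤ : ℕ∞) w := hv.comp (contDiff_id.add contDiff_const)
  have hwc : HasCompactSupport w := hc.comp_homeomorph (Homeomorph.addRight c)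
  obtain ⟨h1, h2⟩ := ha2_ha1 n k w hw hwc
  have hdv : ∀ i x, dv k i w x = dv k i v (x + c) := by
    intro i x
    unfold dv
    rw [show w = fun x => v (x + c) from rfl, fderiv_comp_add_right]
  have e1 : (fun x : Cf n => w x ^ 2 / nr (x k) ^ 2) =
      fun x => (fun x : Cf n => v x ^ 2 / nr (x k - a) ^ 2) (x + c) := by
    funext x
    simp only [w, c, Pi.add_apply, add_sub_cancel_right]
  have e2 : ∫ x : Cf n, w x ^ 2 / nr (x k) ^ 2 = ∫ x : Cf n, v x ^ 2 / nr (x k - a) ^ 2 := by
    rw [e1]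
    exact integral_add_right_eq_self (fun x : Cf n => v x ^ 2 / nr (x k - a) ^ 2) c
  have e3 : ∫ x : Cf n, ∑ i, dv k i w x ^ 2 = ∫ x : Cf n, ∑ i, dv k i v x ^ 2 := by
    simp only [hdv]
    exact integral_add_right_eq_self (fun x : Cf n => ∑ i, dv k i v x ^ 2) c
  rw [e1] at h1
  have h3 := h1.comp_add_right (-c)
  simp only [neg_add_cancel_right] at h3
  refine ⟨h3, ?_⟩
  rw [← e2, ← e3]
  exact h2

end Pool.Agent.Helper95.PW
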